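import Pool.Agent.H362.LD.Stm

/-!
# Project LD (helper362), task DISC: value at the centre and area integral
-/

set_option autoImplicit false

open MeasureTheory Filter Topology Set Metric
open scoped Real

namespace Pool.Agent.H227.LD362

/-- mean value property on a circle -/
private theorem circ {f : ℂ → ℂ} {U : Set ℂ} (hU : IsOpen U) (hf : DifferentiableOn ℂ f U)
    {z : ℂ} {R : ℝ} (hR : 0 < R) (hb : closedBall z R ⊆ U) :
    ENNReal.ofReal (2 * π * ‖f z‖) ≤
      ∫⁻ θ in Ioo (-π) π, ENNReal.ofReal ‖f (circleMap z R θ)‖ := by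
  have hpi := Real.pi_pos
  have hc : ContinuousOn f (closedBall z |R|) := by
    rw [abs_of_pos hR]
    exact hf.continuousOn.mono hb
  have hd : ∀ w ∈ ball z |R| \ (∅ : Set ℂ), DifferentiableAt ℂ f w := by
    intro w hw
    rw [abs_of_pos hR] at hw
    exact hf.differentiableAt (hU.mem_nhds (hb (ball_subset_closedBall hw.1)))
  have hav := circleAverage_of_differentiable_on_off_countable (c := z) (R := R)
    countable_empty hc hd
  rw [Real.circleAverage_def] at hav
  have hcont : Continuous fun θ : ℝ => f (circleMap z R θ) := by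
    have h1 : ContinuousOn f (sphere z |R|) := hc.mono sphere_subset_closedBall
    exact h1.comp_continuous (continuous_circleMap z R) fun θ => circleMap_mem_sphere' z R θ
  have hn : ‖f z‖ ≤ (2 * π)⁻¹ * ∫ θ in (0 : ℝ)..2 * π, ‖f (circleMap z R θ)‖ := by
    calc ‖f z‖ = ‖(2 * π)⁻¹ • ∫ θ in (0 : ℝ)..2 * π, f (circleMap z R θ)‖ := by rw [hav]
      _ = (2 * π)⁻¹ * ‖∫ θ in (0 : ℝ)..2 * π, f (circleMap z R θ)‖ := by
        rw [norm_smul, Real.norm_of_nonneg (by positivity)]
      _ ≤ (2 * π)⁻¹ * ∫ θ in (0 : ℝ)..2 * π, ‖f (circleMap z R θ)‖ := by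
        refine mul_le_mul_of_nonneg_left ?_ (by positivity)
        exact intervalIntegral.norm_integral_le_integral_norm (by positivity)
  have hshift : (∫ θ in (0 : ℝ)..2 * π, ‖f (circleMap z R θ)‖) =
      ∫ θ in (-π)..π, ‖f (circleMap z R θ)‖ := by
    have hper : Function.Periodic (fun θ => ‖f (circleMap z R θ)‖) (2 * π) := by
      intro θ
      simp only
      rw [periodic_circleMap z R θ]
    have h1 := hper.intervalIntegral_add_eq 0 (-π)
    rw [zero_add] at h1
    rw [h1]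
    congr 1
    ring
  have h5 : 2 * π * ‖f z‖ ≤ ∫ θ in (-π)..π, ‖f (circleMap z R θ)‖ := by
    rw [hshift] at hn
    calc 2 * π * ‖f z‖ ≤ 2 * π * ((2 * π)⁻¹ * ∫ θ in (-π)..π, ‖f (circleMap z R θ)‖) :=
          mul_le_mul_of_nonneg_left hn (by positivity)
      _ = _ := by
        rw [← mul_assoc, mul_inv_cancel₀ (by positivity), one_mul]
  refine (ENNReal.ofReal_le_ofReal h5).trans (le_of_eq ?_)
  rw [intervalIntegral.integral_of_le (by linarith), integral_Ioc_eq_integral_Ioo,
    ofReal_integral_eq_lintegral_ofReal]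
  · exact (hcont.norm.integrableOn_Icc (a := -π) (b := π)).mono_set Ioo_subset_Icc_self
  · exact Eventually.of_forall fun t => norm_nonneg _

theorem t_DISC : Pool.Agent.H362.LD.S_DISC := by
  intro f U hU hf hfm ρ δ hδ hball
  have hpi := Real.pi_pos
  have hpi3 := Real.pi_gt_three
  obtain ⟨X, hX⟩ : ∃ X, X = ‖f ρ‖ := ⟨_, rfl⟩
  have hX0 : 0 ≤ X := by
    rw [hX]
    exact norm_nonneg _
  rw [← hX]
  obtain ⟨F, hF⟩ : ∃ F : ℂ → ENNReal, F = fun z => ENNReal.ofReal ‖f z‖ := ⟨_, rfl⟩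
  have hFm : Measurable F := by
    rw [hF]
    exact ENNReal.measurable_ofReal.comp hfm.norm
  have hgoal : ∫⁻ w in ball ρ δ, ENNReal.ofReal ‖f w‖ = ∫⁻ w in ball ρ δ, F w := by rw [hF]
  rw [hgoal]
  -- polar coordinates
  have hpol : ∫⁻ z in ball ρ δ, F z =
      ∫⁻ p in polarCoord.target, ENNReal.ofReal p.1 *
        (ball ρ δ).indicator F (ρ + Complex.polarCoord.symm p) := by
    rw [← lintegral_indicator measurableSet_ball, ← lintegral_add_left_eq_self _ ρ]
    exact (Complex.lintegral_comp_polarCoord_symm fun z => (ball ρ δ).indicator F (ρ + z)).symm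
  have hsub : Ioo (δ / 2) δ ×ˢ Ioo (-π) π ⊆ polarCoord.target := by
    rintro ⟨r, θ⟩ ⟨hr, hθ⟩
    exact ⟨by
      have : δ / 2 < r := hr.1
      show (0:ℝ) < r
      linarith, hθ⟩
  have hcm : ∀ r θ : ℝ, ρ + Complex.polarCoord.symm (r, θ) = circleMap ρ r θ := by
    intro r θ
    rw [Complex.polarCoord_symm_apply, circleMap, Complex.exp_mul_I]
    push_cast
    rfl
  have hmeas : Measurable fun p : ℝ × ℝ => ENNReal.ofReal p.1 * F (circleMap ρ p.1 p.2) := by
    refine (measurable_fst.ennreal_ofReal).mul (hFm.comp ?_)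
    have : Continuous fun p : ℝ × ℝ => circleMap ρ p.1 p.2 := by
      unfold circleMap
      fun_prop
    exact this.measurable
  have hlow : ∫⁻ r in Ioo (δ / 2) δ, ∫⁻ θ in Ioo (-π) π, ENNReal.ofReal r * F (circleMap ρ r θ) ≤
      ∫⁻ z in ball ρ δ, F z := by
    rw [hpol]
    calc ∫⁻ r in Ioo (δ / 2) δ, ∫⁻ θ in Ioo (-π) π, ENNReal.ofReal r * F (circleMap ρ r θ) =
        ∫⁻ p in Ioo (δ / 2) δ ×ˢ Ioo (-π) π, ENNReal.ofReal p.1 * F (circleMap ρ p.1 p.2) := by
          rw [Measure.volume_eq_prod, ← Measure.prod_restrict, lintegral_prod _ hmeas.aemeasurable]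
      _ = ∫⁻ p in Ioo (δ / 2) δ ×ˢ Ioo (-π) π, ENNReal.ofReal p.1 *
          (ball ρ δ).indicator F (ρ + Complex.polarCoord.symm p) := by
          refine setLIntegral_congr_fun (measurableSet_Ioo.prod measurableSet_Ioo) ?_
          rintro ⟨r, θ⟩ ⟨hr, hθ⟩
          simp only at hr hθ ⊢
          rw [hcm, indicator_of_mem]
          rw [mem_ball, dist_eq_norm, circleMap_sub_center, norm_circleMap_zero,
            abs_of_pos (by linarith [hr.1])]
          exact hr.2
      _ ≤ _ := lintegral_mono_set hsub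
  have hinner : ∀ r ∈ Ioo (δ / 2) δ, ENNReal.ofReal (δ / 2 * (2 * π * X)) ≤
      ∫⁻ θ in Ioo (-π) π, ENNReal.ofReal r * F (circleMap ρ r θ) := by
    intro r hr
    have hr0 : 0 < r := by linarith [hr.1]
    rw [lintegral_const_mul' _ _ ENNReal.ofReal_ne_top]
    have hsb : closedBall ρ r ⊆ closedBall ρ δ := closedBall_subset_closedBall hr.2.le
    have h2 := circ hU hf hr0 (hsb.trans hball)
    rw [← hX] at h2
    have h3 : ∫⁻ θ in Ioo (-π) π, F (circleMap ρ r θ) =
        ∫⁻ θ in Ioo (-π) π, ENNReal.ofReal ‖f (circleMap ρ r θ)‖ := by rw [hF]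
    rw [h3]
    refine le_trans ?_ (mul_le_mul' le_rfl h2)
    rw [← ENNReal.ofReal_mul hr0.le]
    refine ENNReal.ofReal_le_ofReal ?_
    exact mul_le_mul_of_nonneg_right hr.1.le (by positivity)
  have hmain : ENNReal.ofReal (δ / 2 * (2 * π * X)) * ENNReal.ofReal (δ / 2) ≤
      ∫⁻ z in ball ρ δ, F z := by
    refine le_trans ?_ hlow
    calc ENNReal.ofReal (δ / 2 * (2 * π * X)) * ENNReal.ofReal (δ / 2) =
        ∫⁻ _ in Ioo (δ / 2) δ, ENNReal.ofReal (δ / 2 * (2 * π * X)) := by
          rw [setLIntegral_const, Real.volume_Ioo]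
          congr 2; ring
      _ ≤ _ := setLIntegral_mono' measurableSet_Ioo fun r hr => hinner r hr
  rw [← ENNReal.ofReal_mul' (by positivity)] at hmain
  refine le_trans (ENNReal.ofReal_le_ofReal ?_) hmain
  have e : δ / 2 * (2 * π * X) * (δ / 2) = δ ^ 2 * X * (π / 2) := by ring
  rw [e]
  have : 0 ≤ δ ^ 2 * X := by positivity
  nlinarith

end Pool.Agent.H227.LD362
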